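import Mathlib

set_option autoImplicit false

namespace Pool.Agent.Results.MP_06047d_an.Period54

def L : List ℤ := [-2, 4, 4, -1, -1, 6, 2, 2, 7, 8, 2, 6, 6, 1, -2, 4, 0, -2, 3, 6, 2, 6, 8, 5, 2, 6, 2, -2, 1, 4, -2, 2, 6, 5, 2, 8, 6, 2, 3, 6, -2, 0, 4, 3, -2, 6, 6, 2, 3, 8, 2, 2, 6, 5]

def y (n : ℕ) : ℤ := L.getD (n % 54) 0

lemma y_mod (n k : ℕ) : y (n + k) = y (n % 54 + k) := by
  simp only [y, Nat.mod_add_mod]

lemma rec_fin : ∀ r < 54, y (r + 5) =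
    max (max (max (max (y (r + 4)) (y (r + 3))) (y (r + 2))) (y (r + 1))) 0 - y (r + 0) := by
  decide +kernel

lemma not_per : ∀ N < 54, 0 < N → ∃ n < 54, y (n + N) ≠ y n := by decide +kernel

theorem result : ∃ x : ℕ → ℝ,
    (∀ n, x (n + 5) =
      max (max (max (max (x (n + 4)) (x (n + 3))) (x (n + 2))) (x (n + 1))) 0 - x n) ∧
    ∃ P : ℕ, IsLeast {N : ℕ | 1 ≤ N ∧ ∀ n, x (n + N) = x n} P ∧
      P ∉ ({1, 2, 2 * 5, 3 * 5 - 1} : Set ℕ) ∪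
        {N | ∃ a b : ℕ, 1 ≤ a ∧ 1 ≤ b ∧ Nat.gcd a b = 1 ∧ N = (3 * 5 - 2) * a + (3 * 5 - 1) * b} := by
  refine ⟨fun n => (y n : ℝ), fun n => ?_, 54, ⟨⟨by norm_num, fun n => ?_⟩, fun N hN => ?_⟩, ?_⟩
  · have h := rec_fin (n % 54) (Nat.mod_lt _ (by norm_num))
    simp only [← y_mod, add_zero] at h
    have h0 : y (n % 54) = y n := by simp only [y, Nat.mod_mod]
    rw [h0] at h
    simp only [h]
    push_cast
    rfl
  · simp only [y, Nat.add_mod_right]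
  · by_contra hlt
    obtain ⟨n, -, hn⟩ := not_per N (not_le.mp hlt) hN.1
    exact hn (Int.cast_injective (α := ℝ) (hN.2 n))
  · rintro (h | ⟨a, b, ha, hb, hg, h⟩)
    · simp at h
    · have h1 : a = 2 ∧ b = 2 := by omega
      rw [h1.1, h1.2] at hg
      exact absurd hg (by norm_num)

end Pool.Agent.Results.MP_06047d_an.Period54
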